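import Pool.Agent.L7h49.PM.Def4
import Pool.Agent.L7h89.PM.Bus

/-!
# Project PM, part BUSB
-/

set_option autoImplicit false

namespace Pool.Agent.L7h42.PM

open Pool.Agent.L7h49.PM
open Pool.Agent.L7h89.PM (tau tau_nonneg tau_lt tau_le)

theorem norm_pt_le (a b : ℝ) : ‖pt a b‖ ≤ |a| + |b| := by
  rw [pt, EuclideanSpace.norm_eq, Fin.sum_univ_two]
  apply Real.sqrt_le_iff.mpr
  refine ⟨by positivity, ?_⟩
  simp only [Real.norm_eq_abs]
  have h1 := abs_nonneg a
  have h2 := abs_nonneg b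
  simp
  nlinarith [mul_nonneg h1 h2, sq_abs a, sq_abs b]

theorem tau_sub {s t : ℝ} (h0 : 0 ≤ s) (hst : s ≤ t) (h1 : t ≤ 1) :
    (t - s) / 10 ≤ tau t - tau s := by
  have hs : 0 < √(100 - s ^ 2) := Real.sqrt_pos.mpr (by nlinarith)
  have ht : 0 < √(100 - t ^ 2) := Real.sqrt_pos.mpr (by nlinarith)
  have hle : √(100 - t ^ 2) ≤ √(100 - s ^ 2) := Real.sqrt_le_sqrt (by nlinarith)
  have h10 : √(100 - s ^ 2) ≤ 10 := by
    apply Real.sqrt_le_iff.mpr
    exact ⟨by norm_num, by nlinarith [sq_nonneg s]⟩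
  have e1 : t / √(100 - s ^ 2) ≤ tau t := by
    unfold tau
    exact div_le_div_of_nonneg_left (h0.trans hst) ht hle
  have e2 : (t - s) / 10 ≤ (t - s) / √(100 - s ^ 2) :=
    div_le_div_of_nonneg_left (by linarith) hs h10
  have e3 : (t - s) / √(100 - s ^ 2) = t / √(100 - s ^ 2) - tau s := by
    unfold tau
    rw [sub_div]
  linarith

theorem final {C L r : ℝ} (hC : 1 ≤ C) (_hL : 0 < L) (hr : L / 100 < 4 * r ^ 2) (hr0 : 0 < r)
    (h : r ≤ (4 * (6 * C + 1) + 20 * C) * Real.exp (20000 * ((6 * C + 1) ^ 2 + 1))) :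
    L ≤ Real.exp (3000000 * C ^ 2) := by
  have h1 : Real.exp (20000 * ((6 * C + 1) ^ 2 + 1)) ≤ Real.exp (1000000 * C ^ 2) := by
    apply Real.exp_le_exp.mpr
    nlinarith
  have h2 : r ≤ 48 * C * Real.exp (1000000 * C ^ 2) := by
    refine h.trans (mul_le_mul ?_ h1 (Real.exp_pos _).le (by positivity))
    linarith
  have h3 : r ^ 2 ≤ (48 * C * Real.exp (1000000 * C ^ 2)) ^ 2 := by
    exact pow_le_pow_left₀ hr0.le h2 2
  have h4 : Real.exp (3000000 * C ^ 2) =
      Real.exp (1000000 * C ^ 2) * Real.exp (1000000 * C ^ 2) ^ 2 := by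
    rw [← Real.exp_nat_mul, ← Real.exp_add]
    congr 1
    push_cast
    ring
  have h5 : 1000000 * C ^ 2 ≤ Real.exp (1000000 * C ^ 2) := by
    have := Real.add_one_le_exp (1000000 * C ^ 2)
    linarith
  rw [h4]
  have h6 : 0 < Real.exp (1000000 * C ^ 2) ^ 2 := by positivity
  calc L ≤ 400 * r ^ 2 := by linarith
    _ ≤ 400 * (48 * C * Real.exp (1000000 * C ^ 2)) ^ 2 := by linarith
    _ = (921600 * C ^ 2) * Real.exp (1000000 * C ^ 2) ^ 2 := by ring
    _ ≤ (1000000 * C ^ 2) * Real.exp (1000000 * C ^ 2) ^ 2 := by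
        apply mul_le_mul_of_nonneg_right _ h6.le
        nlinarith [sq_nonneg C]
    _ ≤ _ := mul_le_mul_of_nonneg_right h5 h6.le

theorem s_BUSB (h1 : S_MONB) (h2 : S_LIM) (h3 : S_DISCF) : S_BUSB := by
  intro V G f C L hR hK
  have hC := hR.one
  have hC2 : C ≤ C ^ 2 := by nlinarith
  by_cases hL : L < 40000 * C ^ 2
  · have := Real.add_one_le_exp (3000000 * C ^ 2)
    nlinarith
  rw [not_lt] at hL
  have hL100 : 1 ≤ L / 100 := by
    rw [le_div_iff₀ (by norm_num)]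
    nlinarith
  have hLpos : 0 < L := by linarith
  obtain ⟨R, hR1, hR2⟩ := exists_nat_pow_near hL100 (by norm_num : (1 : ℝ) < 4)
  set T : ℝ := 2 ^ R with hT
  have hTpos : 0 < T := by positivity
  have hT1 : 1 ≤ T := one_le_pow₀ (by norm_num)
  have hT2 : T ^ 2 = 4 ^ R := by
    rw [hT, ← pow_mul, mul_comm R 2, pow_mul]
    norm_num
  have hTL : T ^ 2 ≤ L / 100 := by rw [hT2]; exact hR1
  have hTL2 : L / 100 < 4 * T ^ 2 := by
    rw [hT2]
    rw [pow_succ] at hR2
    linarith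
  set H : ℝ := 200 * C with hH
  have hy : ∀ n : ℕ, (n : ℝ) * (20 * C) ≤ T → ((n : ℝ) * H) ^ 2 ≤ L ∧ (n : ℝ) * H ≤ L / 8 := by
    intro n hn
    have e1 : (n : ℝ) * H ≤ 10 * T := by
      rw [hH]
      linarith
    have e0 : 0 ≤ (n : ℝ) * H := by positivity
    have e2 : ((n : ℝ) * H) ^ 2 ≤ (10 * T) ^ 2 := pow_le_pow_left₀ e0 e1 2
    have e3 : ((n : ℝ) * H) ^ 2 ≤ L := by nlinarith
    refine ⟨e3, ?_⟩
    by_contra h
    rw [not_le] at h
    have e4 : (L / 8) ^ 2 < ((n : ℝ) * H) ^ 2 := pow_lt_pow_left₀ h (by positivity) (by norm_num)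
    nlinarith
  have hne : Nonempty V := hR.conn.nonempty
  have hx : ∀ n : ℕ, ∃ x, (n : ℝ) * (20 * C) ≤ T → ‖f x - pt 0 (n * H)‖ < C := by
    intro n
    by_cases hn : (n : ℝ) * (20 * C) ≤ T
    · obtain ⟨x, hx⟩ := hR.net (pt 0 (n * H)) (by
        refine (norm_pt_le _ _).trans ?_
        rw [abs_zero, abs_of_nonneg (by positivity)]
        linarith [(hy n hn).2])
      exact ⟨x, fun _ => hx⟩
    · exact ⟨Classical.arbitrary V, fun h => absurd h hn⟩
  choose x hx using hx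
  have hj : ∀ j : ℕ, j ≤ 2 ^ R → 0 ≤ (j : ℝ) / T ∧ (j : ℝ) / T ≤ 1 := by
    intro j hj
    refine ⟨by positivity, ?_⟩
    rw [div_le_one hTpos, hT]
    exact_mod_cast hj
  have hz : ∀ j : ℕ, ∃ z, j ≤ 2 ^ R → ‖f z - pt L (tau ((j : ℝ) / T) * L)‖ < C := by
    intro j
    by_cases hjj : j ≤ 2 ^ R
    · obtain ⟨a1, a2⟩ := hj j hjj
      have b1 := tau_nonneg a1
      have b2 := tau_le a1 a2
      obtain ⟨z, hz⟩ := hR.net (pt L (tau ((j : ℝ) / T) * L)) (by
        refine (norm_pt_le _ _).trans ?_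
        rw [abs_of_nonneg hLpos.le, abs_of_nonneg (by positivity)]
        nlinarith)
      exact ⟨z, fun _ => hz⟩
    · exact ⟨Classical.arbitrary V, fun h => absurd h hjj⟩
  choose z hz using hz
  have key := h3 R (fun n j => (G.dist (x 0) (z j) : ℤ) - G.dist (x n) (z j)) (20 * C) (6 * C + 1)
    (by linarith) ?_ ?_
  · exact final hC hLpos hTL2 hTpos key
  · intro n j hn hjj
    rw [← hT] at hn ⊢
    obtain ⟨hs0, hs1⟩ := hj j hjj
    obtain ⟨hy1, hy2⟩ := hy n hn
    have hn0 : 0 ≤ (n : ℝ) * H := by positivity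
    have hlim := h2 (n * H) ((j : ℝ) / T) L hn0 hs0 hs1 hLpos (by linarith)
    have hle : (n * H) ^ 2 / L ≤ 1 := by
      rw [div_le_one hLpos]
      exact hy1
    have hn1 := hR.near (x 0) (z j)
    have hn2 := hR.near (x n) (z j)
    have hx0 := hx 0 (by simp; positivity)
    have hxn := hx n hn
    have hzz := hz j hjj
    have e0 : ((0 : ℕ) : ℝ) * H = 0 := by simp
    rw [e0] at hx0
    have ht : tau ((j : ℝ) / T) * L = ((j : ℝ) / T) / √(100 - ((j : ℝ) / T) ^ 2) * L := rfl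
    rw [ht] at hzz
    set s := (j : ℝ) / T with hs
    set P0 := pt 0 0
    set Pn := pt 0 (n * H)
    set PL := pt L (s / √(100 - s ^ 2) * L)
    have d1 : |‖f (x 0) - f (z j)‖ - ‖P0 - PL‖| ≤ ‖f (x 0) - P0‖ + ‖f (z j) - PL‖ := by
      calc |‖f (x 0) - f (z j)‖ - ‖P0 - PL‖| ≤ ‖(f (x 0) - f (z j)) - (P0 - PL)‖ :=
            abs_norm_sub_norm_le _ _
        _ = ‖(f (x 0) - P0) - (f (z j) - PL)‖ := by congr 1; abel
        _ ≤ _ := norm_sub_le _ _
    have d2 : |‖f (x n) - f (z j)‖ - ‖Pn - PL‖| ≤ ‖f (x n) - Pn‖ + ‖f (z j) - PL‖ := by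
      calc |‖f (x n) - f (z j)‖ - ‖Pn - PL‖| ≤ ‖(f (x n) - f (z j)) - (Pn - PL)‖ :=
            abs_norm_sub_norm_le _ _
        _ = ‖(f (x n) - Pn) - (f (z j) - PL)‖ := by congr 1; abel
        _ ≤ _ := norm_sub_le _ _
    push_cast
    rw [abs_le] at hlim d1 d2 ⊢
    rw [abs_lt] at hn1 hn2
    constructor
    · linarith [hlim.1, hlim.2, hn1.1, hn1.2, hn2.1, hn2.2, d1.1, d1.2, d2.1, d2.2]
    · linarith [hlim.1, hlim.2, hn1.1, hn1.2, hn2.1, hn2.2, d1.1, d1.2, d2.1, d2.2]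
  · intro m n i j hmn hn hij hjj
    rw [← hT] at hn
    rcases hmn.eq_or_lt with rfl | hmn
    · simp
    rcases hij.eq_or_lt with rfl | hij
    · exact le_rfl
    have hmn' : (m : ℝ) + 1 ≤ n := by exact_mod_cast hmn
    have hm : (m : ℝ) * (20 * C) ≤ T := by
      refine le_trans ?_ hn
      apply mul_le_mul_of_nonneg_right _ (by positivity)
      linarith
    have hii : i ≤ 2 ^ R := hij.le.trans hjj
    obtain ⟨a1, a2⟩ := hj i hii
    obtain ⟨b1, b2⟩ := hj j hjj
    have hst : (i : ℝ) / T + 1 / T ≤ (j : ℝ) / T := by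
      rw [← add_div]
      apply div_le_div_of_nonneg_right _ hTpos.le
      exact_mod_cast hij
    have hT' : 0 < 1 / T := by positivity
    have hts := tau_sub a1 (by linarith) b2
    have hTT : 200 * C ≤ (1 / T) / 10 * L := by
      have e1 : (1 / T) / 10 * L = L / (10 * T) := by
        field_simp
      rw [e1, le_div_iff₀ (by positivity)]
      have e2 : (200 * C * (10 * T)) ^ 2 ≤ L ^ 2 := by
        have : (200 * C * (10 * T)) ^ 2 = (40000 * C ^ 2) * (100 * T ^ 2) := by ring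
        rw [this, sq L]
        exact mul_le_mul hL (by linarith) (by positivity) hLpos.le
      exact (pow_le_pow_iff_left₀ (by positivity) hLpos.le (by norm_num)).mp e2
    have hn0 : 0 ≤ (n : ℝ) * H := by positivity
    have hm0 : 0 ≤ (m : ℝ) * H := by positivity
    have hgood : Good L C (m * H) (n * H) (tau ((i : ℝ) / T) * L) (tau ((j : ℝ) / T) * L) := by
      refine ⟨hC, by nlinarith, ?_, ?_, ?_, ?_, ?_, ?_⟩
      · have : ((m : ℝ) + 1) * H ≤ n * H := mul_le_mul_of_nonneg_right hmn' (by positivity)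
        rw [hH] at *
        linarith
      · have h5 : (1 / T) / 10 ≤ tau ((j : ℝ) / T) - tau ((i : ℝ) / T) := by linarith
        have h6 := mul_le_mul_of_nonneg_right h5 hLpos.le
        linarith
      · linarith
      · exact (hy n hn).2
      · have := mul_nonneg (tau_nonneg a1) hLpos.le
        linarith
      · have := mul_le_mul_of_nonneg_right (tau_le b1 b2) hLpos.le
        linarith
    have hmon := h1 V G f C L hR hK (m * H) (n * H) (tau ((i : ℝ) / T) * L)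
      (tau ((j : ℝ) / T) * L) hgood (x m) (x n) (z j) (z i) (hx m hm).le (hx n hn).le
      (hz j hjj).le (hz i hii).le
    have hmon' : (G.dist (x m) (z i) : ℤ) + G.dist (x n) (z j)
        ≤ G.dist (x m) (z j) + G.dist (x n) (z i) := by exact_mod_cast hmon
    linarith

end Pool.Agent.L7h42.PM
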